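import Pool.Agent.Work.MP_14a437_ag.T.Index
import Pool.Agent.Work.MP_14a437_ag.D.Conn
import Pool.Agent.Work.MP_14a437_ag.L.Psd1
import Pool.Agent.Work.MP_14a437_ag.A.Chi
import Pool.Agent.Work.MP_14a437_ag.S.AdmH
import Pool.Agent.Work.MP_14a437_ag.E.Form

/-!
# T/ThmA  (M) : no finite length heart when the radical has rank at least two

Let `T = TSimple (S.heart a)`; `hgen` from `generation`; `I`, `s` from `exists_index T`;
`G i j = chi k (s i) (s j)`.  Then `G` is symmetric (`chi_symm`), `G i j ≤ 0` for `i ≠ j`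
(`chi_simple_ne`, `heart_isAdm`); for `c : I →₀ ℤ` with class `e(c) = c.sum fun i a => a • cl (s i)`
one has `bil G c d = eulerForm hCY (e c) (e d)` (`map_finsuppSum`), so `G` is semidefinite.
Connected: if `J` is a set with `G i j = 0` for `i ∈ J`, `j ∉ J`, put `P X := ∃ i ∈ J, Nonempty (X ≅ s i)`,
`Q X := ∃ i ∉ J, Nonempty (X ≅ s i)`; by `chi_simple_ne` all `Hom(X, Y⟦n⟧)`, `Hom(Y, X⟦n⟧)` vanish;
`connected_generators` shows that all `s i` (`i ∈ J`) are zero or all `s i` (`i ∉ J`) are zero, but `TSimple`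
objects are not zero, so `J = ∅` or `J = univ`.
Lift `x, y` to `x', y' : I →₀ ℤ` (`exists_lift`); `bil G x' x' = eulerForm x x = 0`; apply
`radical_rank_le_one` and take classes.
-/

open CategoryTheory CategoryTheory.Limits CategoryTheory.Pretriangulated

universe v u

namespace MP_14a437_ag

variable {C : Type u} [Category.{v} C] [Preadditive C] [HasZeroObject C] [HasShift C ℤ]
  [∀ n : ℤ, (shiftFunctor C n).Additive] [Pretriangulated C] [IsTriangulated C]

variable {k : Type*} [Field k] [Linear k C]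

omit [IsTriangulated C] in
theorem bil_eq_form (hCY : IsCY2 C k) {I : Type*} (s : I → C) (c d : I →₀ ℤ) :
    bil (fun i j => chi k (s i) (s j)) c d =
      eulerForm hCY (c.sum fun i a => a • cl (s i)) (d.sum fun i a => a • cl (s i)) := by
  unfold bil
  rw [Finsupp.sum, Finsupp.sum, map_sum, AddMonoidHom.finset_sum_apply]
  refine Finset.sum_congr rfl fun i _ => ?_
  rw [Finsupp.sum, Finsupp.sum, map_zsmul, AddMonoidHom.smul_apply, map_sum, Finset.smul_sum]
  refine Finset.sum_congr rfl fun j _ => ?_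
  rw [map_zsmul, eulerForm_cl]
  simp only [smul_eq_mul]
  ring

theorem not_finiteLength (hCY : IsCY2 C k) (hInd : IsIndecomposable C)
    (hpsd : ∀ x, 0 ≤ eulerForm hCY x x) (S : Slicing C) (a : ℝ)
    (hfl : FiniteLength (S.heart a)) (x y : K0 C) (hx : x ∈ radical hCY) (hy : y ∈ radical hCY) :
    ∃ m n : ℤ, (m ≠ 0 ∨ n ≠ 0) ∧ m • x + n • y = 0 := by
  have hgen := generation S a hfl
  have hAdm := heart_isAdm S a
  obtain ⟨I, s, hs, hne, hall⟩ := exists_index (TSimple (S.heart a))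
  set G : I → I → ℤ := fun i j => chi k (s i) (s j) with hG
  have hsymm : ∀ i j, G i j = G j i := fun i j => chi_symm hCY _ _
  have hneg : ∀ i j, i ≠ j → G i j ≤ 0 := fun i j hij =>
    (chi_simple_ne hCY hAdm (hs i) (hs j) (hne i j hij)).1
  have hpsdG : ∀ c : I →₀ ℤ, 0 ≤ bil G c c := fun c => by
    rw [hG, bil_eq_form hCY]; exact hpsd _
  have hconn : ∀ J : Set I, (∀ i ∈ J, ∀ j ∉ J, G i j = 0) → J = ∅ ∨ J = Set.univ := by
    intro J hJ
    have key : ∀ i j, i ≠ j → G i j = 0 → ∀ (X Y : C), Nonempty (X ≅ s i) →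
        Nonempty (Y ≅ s j) → ∀ (n : ℤ) (f : X ⟶ Y⟦n⟧), f = 0 := by
      rintro i j hij h0 X Y ⟨eX⟩ ⟨eY⟩ n f
      have h1 := (chi_simple_ne hCY hAdm (hs i) (hs j) (hne i j hij)).2 h0 n
        (eX.inv ≫ f ≫ (shiftFunctor C n).map eY.hom)
      have h2 : f = eX.hom ≫ (eX.inv ≫ f ≫ (shiftFunctor C n).map eY.hom) ≫
          (shiftFunctor C n).map eY.inv := by
        simp [← Functor.map_comp]
      rw [h2, h1]; simp
    have hd : ∀ i ∈ J, ∀ j ∉ J, i ≠ j := fun i hi j hj h => hj (h ▸ hi)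
    have hcg := connected_generators hInd hgen (fun X => ∃ i ∈ J, Nonempty (X ≅ s i))
      (fun X => ∃ i, i ∉ J ∧ Nonempty (X ≅ s i))
      (fun X hX => by
        obtain ⟨i, hi⟩ := hall X hX
        by_cases hiJ : i ∈ J
        · exact Or.inl ⟨i, hiJ, hi⟩
        · exact Or.inr ⟨i, hiJ, hi⟩)
      (by
        rintro X Y ⟨i, hi, eX⟩ ⟨j, hj, eY⟩ n f
        exact key i j (hd i hi j hj) (hJ i hi j hj) X Y eX eY n f)
      (by
        rintro X Y ⟨i, hi, eX⟩ ⟨j, hj, eY⟩ n f
        exact key j i (hd i hi j hj).symm (by rw [hsymm]; exact hJ i hi j hj) Y X eY eX n f)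
    rcases hcg with h | h
    · left
      rw [Set.eq_empty_iff_forall_notMem]
      intro i hi
      exact (hs i).2.1 (h _ ⟨i, hi, ⟨Iso.refl _⟩⟩)
    · right
      rw [Set.eq_univ_iff_forall]
      intro i
      by_contra hi
      exact (hs i).2.1 (h _ ⟨i, hi, ⟨Iso.refl _⟩⟩)
  obtain ⟨c, hc⟩ := exists_lift hgen s hall x
  obtain ⟨d, hd⟩ := exists_lift hgen s hall y
  have hc0 : bil G c c = 0 := by
    rw [hG, bil_eq_form hCY, ← hc]; exact (mem_radical hCY x).1 hx x
  have hd0 : bil G d d = 0 := by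
    rw [hG, bil_eq_form hCY, ← hd]; exact (mem_radical hCY y).1 hy y
  obtain ⟨m, n, hmn, h0⟩ := radical_rank_le_one hsymm hneg hpsdG hconn c d hc0 hd0
  refine ⟨m, n, hmn, ?_⟩
  have hlin : ∀ e : I →₀ ℤ, (e.sum fun i a => a • cl (s i)) =
      Finsupp.linearCombination ℤ (fun i => cl (s i)) e := fun e => rfl
  rw [hc, hd, hlin, hlin, ← map_smul, ← map_smul, ← map_add]
  rw [h0, map_zero]

end MP_14a437_ag
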