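import Pool.Agent.Work.MP_14a437_ag.T.Mass
import Pool.Agent.Work.MP_14a437_ag.F.Length
import Pool.Agent.Work.MP_14a437_ag.S.AdmP

/-!
# T/Gap  (M) : a gap in the phases gives a finite length heart; `P φ` has finite length

`finiteLength_of_gap`: we may assume `t < s + 1` (replace `t` by `min t (s + 1/2)`).  Let
`θ = (s + 1 + t)/2`, `g x = Re (exp(-π i θ) Z x)`, `κ = cos(π (s+1-t)/2) > 0`.  A nonzero object `E` of
`P((s,s+1])` has HN factors with phases in `[t, s+1]` (no phases in `(s,t)`), each factor `A` of phase `φ`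
has `g (cl A) = ‖Z (cl A)‖ cos(π(φ-θ)) ≥ κ ε` with `ε` from `exists_mass_bound`; as `g` is additive
(`cl_tri`, induction on `HN`) and `E` has at least one factor, `g (cl E) ≥ κ ε`.  Apply
`finiteLength_of_bound`.
`P_finiteLength`: `finiteLength_of_bound` with `g x = Re (exp(-π i φ) Z x)`, which is `‖Z (cl E)‖` on `P φ`
(`Z_eq_norm`).
`exists_stable`: `exists_of_ext`.
-/

open CategoryTheory CategoryTheory.Limits CategoryTheory.Pretriangulated

universe v u

namespace MP_14a437_ag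

variable {C : Type u} [Category.{v} C] [Preadditive C] [HasZeroObject C] [HasShift C ℤ]
  [∀ n : ℤ, (shiftFunctor C n).Additive] [Pretriangulated C] [IsTriangulated C]

/-- the real part of the rotated central charge -/
private noncomputable def rot (σ : StabCond C) (θ : ℝ) : K0 C →+ ℝ :=
  Complex.reAddGroupHom.comp
    ((AddMonoidHom.mulLeft (Complex.exp (-(Real.pi * θ * Complex.I)))).comp σ.Z)

private theorem rot_apply (σ : StabCond C) (θ : ℝ) {φ : ℝ} {E : C} (hE : σ.P φ E) :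
    rot σ θ (cl E) = ‖σ.Z (cl E)‖ * Real.cos (Real.pi * (φ - θ)) := by
  have h : rot σ θ (cl E) = (Complex.exp (-(Real.pi * θ * Complex.I)) * σ.Z (cl E)).re := rfl
  rw [h]
  have h2 : Complex.exp (-(Real.pi * θ * Complex.I)) * σ.Z (cl E) =
      ((‖σ.Z (cl E)‖ : ℝ) : ℂ) * Complex.exp (((Real.pi * (φ - θ) : ℝ) : ℂ) * Complex.I) := by
    conv_lhs => rw [Z_eq_norm σ hE]
    rw [mul_left_comm, ← Complex.exp_add]
    congr 2
    push_cast
    ring
  rw [h2, Complex.re_ofReal_mul, Complex.exp_ofReal_mul_I_re]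

omit [IsTriangulated C] in
private theorem hn_bound {P : ℝ → ObjectProperty C} {I : Set ℝ} (g : K0 C →+ ℝ) {δ : ℝ}
    (hδ : 0 < δ) (hg : ∀ φ ∈ I, ∀ A : C, P φ A → ¬ IsZero A → δ ≤ g (cl A)) {E : C} {l : List ℝ}
    (h : HN P E l) (hl : ∀ φ ∈ l, φ ∈ I) : 0 ≤ g (cl E) ∧ (¬ IsZero E → δ ≤ g (cl E)) := by
  induction h with
  | zero h =>
    rw [cl_zero h, map_zero]
    exact ⟨le_rfl, fun h2 => absurd h h2⟩
  | cons f g' h hT hE' hA hA0 hl' ih =>
    have h1 := ih fun φ hφ => hl φ (List.mem_cons_of_mem _ hφ)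
    have h2 := hg _ (hl _ List.mem_cons_self) _ hA hA0
    rw [cl_tri _ _ _ hT, map_add]
    exact ⟨by linarith [h1.1], fun _ => by linarith [h1.1]⟩

theorem finiteLength_of_gap [Module.Free ℤ (K0 C)] [Module.Finite ℤ (K0 C)] (σ : StabCond C)
    (s t : ℝ) (hst : s < t)
    (hgap : ∀ (φ : ℝ) (E : C), s < φ → φ < t → σ.P φ E → IsZero E) :
    FiniteLength (σ.heart s) := by
  obtain ⟨ε, hε, hb⟩ := exists_mass_bound σ
  set t' := min t (s + 1 / 2) with ht'
  have h1 : s < t' := lt_min hst (by linarith)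
  have h2 : t' ≤ t := min_le_left _ _
  have h3 : t' ≤ s + 1 / 2 := min_le_right _ _
  have hpi := Real.pi_pos
  have hκ : 0 < Real.cos (Real.pi * ((s + 1 - t') / 2)) := by
    apply Real.cos_pos_of_mem_Ioo
    constructor
    · nlinarith
    · nlinarith
  have hg : ∀ φ ∈ Set.Ioc s (s + 1), ∀ A : C, σ.P φ A → ¬ IsZero A →
      Real.cos (Real.pi * ((s + 1 - t') / 2)) * ε ≤ rot σ ((s + 1 + t') / 2) (cl A) := by
    intro φ hφ A hA hA0
    have h4 : t' ≤ φ := by
      by_contra h5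
      push Not at h5
      exact hA0 (hgap φ A hφ.1 (h5.trans_le h2) hA)
    rw [rot_apply σ _ hA, mul_comm]
    have h5 : Real.cos (Real.pi * ((s + 1 - t') / 2)) ≤
        Real.cos (Real.pi * (φ - (s + 1 + t') / 2)) := by
      rw [← Real.cos_abs (Real.pi * (φ - (s + 1 + t') / 2))]
      apply Real.cos_le_cos_of_nonneg_of_le_pi (abs_nonneg _)
      · nlinarith
      · rw [abs_mul, abs_of_pos hpi]
        apply mul_le_mul_of_nonneg_left _ hpi.le
        rw [abs_le]
        constructor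
        · linarith
        · linarith [hφ.2]
    exact mul_le_mul (hb φ A hA hA0) h5 hκ.le (norm_nonneg _)
  refine finiteLength_of_bound (σ.heart s) (rot σ ((s + 1 + t') / 2))
    (Real.cos (Real.pi * ((s + 1 - t') / 2)) * ε) (mul_pos hκ hε) ?_
  rintro E ⟨l, hl, hlI⟩ hE0
  exact (hn_bound (P := σ.P) (I := Set.Ioc s (s + 1)) _ (mul_pos hκ hε) hg hl hlI).2 hE0

theorem P_finiteLength [Module.Free ℤ (K0 C)] [Module.Finite ℤ (K0 C)] (σ : StabCond C)
    (φ : ℝ) : FiniteLength (σ.P φ) := by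
  obtain ⟨ε, hε, hb⟩ := exists_mass_bound σ
  refine finiteLength_of_bound (σ.P φ) (rot σ φ) ε hε ?_
  intro E hE hE0
  rw [rot_apply σ φ hE, sub_self, mul_zero, Real.cos_zero, mul_one]
  exact hb φ E hE hE0

theorem exists_stable [Module.Free ℤ (K0 C)] [Module.Finite ℤ (K0 C)] (σ : StabCond C)
    {φ : ℝ} {E : C} (hE : σ.P φ E) (h0 : ¬ IsZero E) : ∃ X, TSimple (σ.P φ) X :=
  exists_of_ext (P_finiteLength σ φ E hE) h0

end MP_14a437_ag
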