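import Pool.Agent.Work.MP_14a437_ag.K.Basic

/-!
# T/Mass  (S-M) : consequences of the support property

Let `b` be a ℤ-basis of `K0 C` (`Module.Free.chooseBasis`, finite), `c i` the constant of the support
property for the functional `x ↦ (b.repr x i : ℝ)`.
`exists_mass_bound`: `Z (cl E) ≠ 0` (`compat`), so `cl E ≠ 0` and some coordinate has `|·| ≥ 1`, so
`1 ≤ c i * ‖Z (cl E)‖`; take `ε = 1 / (1 + ∑ |c i|)`.
`finite_classes`: the coordinates are integers bounded by `|c i| * R` (`Set.Finite.pi`, injectivity of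
`b.repr` / `b.equivFun`).
-/

open CategoryTheory CategoryTheory.Limits CategoryTheory.Pretriangulated

universe v u

namespace MP_14a437_ag

variable {C : Type u} [Category.{v} C] [Preadditive C] [HasZeroObject C] [HasShift C ℤ]
  [∀ n : ℤ, (shiftFunctor C n).Additive] [Pretriangulated C] [IsTriangulated C]

omit [IsTriangulated C] in
theorem exists_mass_bound [Module.Free ℤ (K0 C)] [Module.Finite ℤ (K0 C)] (σ : StabCond C) :
    ∃ ε : ℝ, 0 < ε ∧ ∀ (φ : ℝ) (E : C), σ.P φ E → ¬ IsZero E → ε ≤ ‖σ.Z (cl E)‖ := by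
  classical
  choose c hc using fun i : Module.Free.ChooseBasisIndex ℤ (K0 C) =>
    σ.support ((Int.castAddHom ℝ).comp ((Module.Free.chooseBasis ℤ (K0 C)).coord i).toAddMonoidHom)
  have hs : 0 ≤ ∑ i, |c i| := Finset.sum_nonneg fun _ _ => abs_nonneg _
  refine ⟨1 / (1 + ∑ i, |c i|), by positivity, fun φ E hE hE0 => ?_⟩
  obtain ⟨m, hm, hZ⟩ := σ.compat φ E hE hE0
  have hcl : cl E ≠ 0 := by
    intro h0
    rw [h0, map_zero] at hZ
    have h1 : (m : ℂ) * Complex.exp (Real.pi * φ * Complex.I) ≠ 0 :=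
      mul_ne_zero (Complex.ofReal_ne_zero.2 hm.ne') (Complex.exp_ne_zero _)
    exact h1 hZ.symm
  obtain ⟨i, hi⟩ : ∃ i, (Module.Free.chooseBasis ℤ (K0 C)).repr (cl E) i ≠ 0 := by
    by_contra hcon
    push Not at hcon
    apply hcl
    apply (Module.Free.chooseBasis ℤ (K0 C)).repr.injective
    rw [map_zero]
    exact Finsupp.ext hcon
  have h2 := hc i φ E hE
  have h3 : (1 : ℝ) ≤ |((Int.castAddHom ℝ).comp
      ((Module.Free.chooseBasis ℤ (K0 C)).coord i).toAddMonoidHom) (cl E)| := by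
    have h4 := Int.one_le_abs hi
    have h5 : (1 : ℝ) ≤ |(((Module.Free.chooseBasis ℤ (K0 C)).repr (cl E) i : ℤ) : ℝ)| := by
      exact_mod_cast h4
    exact h5
  have h6 : c i ≤ 1 + ∑ i, |c i| := by
    have h7 : |c i| ≤ ∑ i, |c i| :=
      Finset.single_le_sum (f := fun i => |c i|) (fun _ _ => abs_nonneg _) (Finset.mem_univ i)
    have := le_abs_self (c i)
    linarith
  rw [div_le_iff₀ (by positivity)]
  have h8 : c i * ‖σ.Z (cl E)‖ ≤ (1 + ∑ i, |c i|) * ‖σ.Z (cl E)‖ :=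
    mul_le_mul_of_nonneg_right h6 (norm_nonneg _)
  linarith

omit [IsTriangulated C] in
theorem finite_classes [Module.Free ℤ (K0 C)] [Module.Finite ℤ (K0 C)] (σ : StabCond C) (R : ℝ) :
    {x : K0 C | ∃ (φ : ℝ) (E : C), σ.P φ E ∧ cl E = x ∧ ‖σ.Z x‖ ≤ R}.Finite := by
  classical
  choose c hc using fun i : Module.Free.ChooseBasisIndex ℤ (K0 C) =>
    σ.support ((Int.castAddHom ℝ).comp ((Module.Free.chooseBasis ℤ (K0 C)).coord i).toAddMonoidHom)
  have hfin : (Set.univ.pi (fun i : Module.Free.ChooseBasisIndex ℤ (K0 C) =>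
      Set.Icc ⌊-(|c i| * R)⌋ ⌈|c i| * R⌉)).Finite := Set.Finite.pi fun _ => Set.finite_Icc _ _
  refine (hfin.preimage ((Module.Free.chooseBasis ℤ (K0 C)).equivFun.injective.injOn)).subset ?_
  rintro x ⟨φ, E, hE, rfl, hR⟩
  rw [Set.mem_preimage, Set.mem_univ_pi]
  intro i
  have h2 : |(((Module.Free.chooseBasis ℤ (K0 C)).repr (cl E) i : ℤ) : ℝ)| ≤ c i * ‖σ.Z (cl E)‖ :=
    hc i φ E hE
  have h3 : c i * ‖σ.Z (cl E)‖ ≤ |c i| * R :=
    (mul_le_mul_of_nonneg_right (le_abs_self _) (norm_nonneg _)).trans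
      (mul_le_mul_of_nonneg_left hR (abs_nonneg _))
  have h4 := abs_le.1 (h2.trans h3)
  rw [Module.Basis.equivFun_apply, Set.mem_Icc]
  constructor
  · have h5 : ((⌊-(|c i| * R)⌋ : ℤ) : ℝ) ≤ (((Module.Free.chooseBasis ℤ (K0 C)).repr (cl E) i : ℤ) : ℝ) :=
      (Int.floor_le _).trans h4.1
    exact_mod_cast h5
  · have h5 : (((Module.Free.chooseBasis ℤ (K0 C)).repr (cl E) i : ℤ) : ℝ) ≤ ((⌈|c i| * R⌉ : ℤ) : ℝ) :=
      h4.2.trans (Int.le_ceil _)
    exact_mod_cast h5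

/-- `Z (cl E) = ‖Z (cl E)‖ exp(π i φ)` for `E` semistable of phase `φ`. -/
theorem Z_eq_norm (σ : StabCond C) {φ : ℝ} {E : C} (hE : σ.P φ E) :
    σ.Z (cl E) = ‖σ.Z (cl E)‖ * Complex.exp (Real.pi * φ * Complex.I) := by
  by_cases hE0 : IsZero E
  · rw [cl_zero hE0, map_zero]
    simp
  · obtain ⟨m, hm, hZ⟩ := σ.compat φ E hE hE0
    have h1 : ‖σ.Z (cl E)‖ = m := by
      rw [hZ, norm_mul, show (Real.pi * φ * Complex.I : ℂ) = ((Real.pi * φ : ℝ) : ℂ) * Complex.I by push_cast; ring,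
        Complex.norm_exp_ofReal_mul_I, mul_one, Complex.norm_real, Real.norm_of_nonneg hm.le]
    rw [h1]
    exact hZ

end MP_14a437_ag
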