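import Pool.Agent.Work.MP_14a437_ag.F.Gen
import Pool.Agent.Work.MP_14a437_ag.K.Basic

/-!
# T/Index  (S-M) : representatives of the simple objects, and lifting of classes

`exists_index`: `I` = quotient of the subtype `{X // T X}` by isomorphism, `s` = `Quotient.out`.
`exists_lift`: the classes of the form `c.sum fun i a => a • cl (s i)` form a subgroup
(`Finsupp.liftAddHom` / `Finsupp.linearCombination ℤ`), it contains `cl X` for `X ∈ Shifts T`
(`cl_shiftn`, `cl_iso`), hence (induction on `Ext`, `cl_tri`, `cl_zero`) all `cl E`; `exists_obj`.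
-/

open CategoryTheory CategoryTheory.Limits CategoryTheory.Pretriangulated

universe v u

namespace MP_14a437_ag

variable {C : Type u} [Category.{v} C] [Preadditive C] [HasZeroObject C] [HasShift C ℤ]
  [∀ n : ℤ, (shiftFunctor C n).Additive] [Pretriangulated C] [IsTriangulated C]

omit [Preadditive C] [HasZeroObject C] [HasShift C ℤ]
  [∀ n : ℤ, (shiftFunctor C n).Additive] [Pretriangulated C] [IsTriangulated C] in
theorem exists_index (T : ObjectProperty C) :
    ∃ (I : Type u) (s : I → C), (∀ i, T (s i)) ∧ (∀ i j, i ≠ j → IsEmpty (s i ≅ s j)) ∧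
      ∀ X, T X → ∃ i, Nonempty (X ≅ s i) := by
  let r : Setoid {X : C // T X} :=
    { r := fun X Y => Nonempty (X.1 ≅ Y.1)
      iseqv := ⟨fun X => ⟨Iso.refl _⟩, fun ⟨e⟩ => ⟨e.symm⟩, fun ⟨e⟩ ⟨f⟩ => ⟨e.trans f⟩⟩ }
  refine ⟨Quotient r, fun i => (Quotient.out i).1, fun i => (Quotient.out i).2, fun i j hij => ?_, fun X hX => ?_⟩
  · constructor
    intro e
    apply hij
    rw [← Quotient.out_eq i, ← Quotient.out_eq j]
    exact Quotient.sound ⟨e⟩
  · refine ⟨Quotient.mk r ⟨X, hX⟩, ?_⟩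
    have h : r.r (Quotient.out (Quotient.mk r ⟨X, hX⟩)) ⟨X, hX⟩ := Quotient.exact (Quotient.out_eq _)
    obtain ⟨e⟩ := h
    exact ⟨e.symm⟩

omit [IsTriangulated C] in
theorem exists_lift {T : ObjectProperty C} (hgen : ∀ E : C, Ext (Shifts T) E) {I : Type*}
    (s : I → C) (hs : ∀ X, T X → ∃ i, Nonempty (X ≅ s i)) (x : K0 C) :
    ∃ c : I →₀ ℤ, x = c.sum fun i a => a • cl (s i) := by
  have hlin : ∀ c : I →₀ ℤ, (c.sum fun i a => a • cl (s i)) =
      Finsupp.linearCombination ℤ (fun i => cl (s i)) c := fun c => rfl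
  simp only [hlin]
  obtain ⟨E, rfl⟩ := exists_obj x
  induction hgen E with
  | zero h => exact ⟨0, by rw [cl_zero h, map_zero]⟩
  | of h =>
    obtain ⟨Y, n, hY, ⟨e⟩⟩ := h
    obtain ⟨i, ⟨f⟩⟩ := hs Y hY
    refine ⟨Finsupp.single i (n.negOnePow : ℤ), ?_⟩
    rw [Finsupp.linearCombination_single, cl_iso e, cl_shiftn, cl_iso f]
  | ext f g h hT _ _ ihA ihB =>
    obtain ⟨a, ha⟩ := ihA
    obtain ⟨b, hb⟩ := ihB
    refine ⟨a + b, ?_⟩
    rw [map_add, ← ha, ← hb, cl_tri f g h hT]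

end MP_14a437_ag
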