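import Pool.Agent.Work.MP_14a437_ag.T.Sign
import Pool.Agent.Work.MP_14a437_ag.Hyp

/-!
# T/Orient  (M) : the orientation induced on the radical is locally constant

`orient_ne_zero`: if `orient a b σ = 0` then `Z a, Z b` lie on a real line, so there is a nonzero
`l : ℂ →ₗ[ℝ] ℝ` with `l (Z a) = l (Z b) = 0`; by `hspan` `l` kills `Z(radical)`, contradicting `nondeg`.
`orient_near`: as `orient a b σ ≠ 0`, `Z_σ a, Z_σ b` is a real basis of ℂ; let `L` be the linear map with
`L (Z_σ a) = Z_τ a`, `L (Z_σ b) = Z_τ b`; by `hspan` `Z_τ x = L (Z_σ x)` on the radical.  `L` is injective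
(`orient a b τ ≠ 0`), so `sign_aux` gives `Re(conj w * L w) > 0` for `w ≠ 0` (`cos(π ε) > 0`).  Writing `L` as a
real 2x2 matrix `M`, `det M = det (sym M) + ((m₁₂-m₂₁)/2)² > 0`, and
`orient a b τ = det M * orient a b σ`.
-/

open CategoryTheory CategoryTheory.Limits CategoryTheory.Pretriangulated

universe v u

namespace MP_14a437_ag

variable {C : Type u} [Category.{v} C] [Preadditive C] [HasZeroObject C] [HasShift C ℤ]
  [∀ n : ℤ, (shiftFunctor C n).Additive] [Pretriangulated C] [IsTriangulated C]

variable {k : Type*} [Field k] [IsAlgClosed k] [Linear k C]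

/-- the functional `w ↦ Im (conj z * w)` -/
noncomputable def imFun (z : ℂ) : ℂ →ₗ[ℝ] ℝ where
  toFun w := (starRingEnd ℂ z * w).im
  map_add' x y := by rw [mul_add, Complex.add_im]
  map_smul' r x := by simp; ring

theorem orient_ne_zero [Module.Free ℤ (K0 C)] [Module.Finite ℤ (K0 C)] (hCY : IsCY2 C k)
    (hInd : IsIndecomposable C) (hpsd : ∀ x, 0 ≤ eulerForm hCY x x) {a b : K0 C}
    (ha : a ∈ radical hCY) (hb : b ∈ radical hCY)
    (hab : ∀ m n : ℤ, m • a + n • b = 0 → m = 0 ∧ n = 0)
    (hspan : ∀ x ∈ radical hCY, ∃ N m n : ℤ, N ≠ 0 ∧ N • x = m • a + n • b) (σ : StabCond C) :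
    orient a b σ ≠ 0 := by
  intro h0
  have hrad : ∀ l : ℂ →ₗ[ℝ] ℝ, l (σ.Z a) = 0 → l (σ.Z b) = 0 → l = 0 := by
    intro l hla hlb
    refine nondeg hCY hInd hpsd ha hb hab σ l fun x hx => ?_
    obtain ⟨N, m, n, hN, h1⟩ := hspan x hx
    have h2 : l (σ.Z (N • x)) = l (σ.Z (m • a + n • b)) := by rw [h1]
    have h3 : ∀ (N : ℤ) (y : K0 C), l (σ.Z (N • y)) = N * l (σ.Z y) := by
      intro N y
      rw [map_zsmul, map_zsmul, zsmul_eq_mul]
    rw [map_add, map_add, h3, h3, h3, hla, hlb, mul_zero, mul_zero, add_zero] at h2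
    rcases mul_eq_zero.1 h2 with h4 | h4
    · exact absurd (by exact_mod_cast h4) hN
    · exact h4
  have hself : ∀ z : ℂ, imFun z z = 0 := fun z => by
    show (starRingEnd ℂ z * z).im = 0
    simp; ring
  have hI : ∀ z : ℂ, imFun z (Complex.I * z) = Complex.normSq z := fun z => by
    show (starRingEnd ℂ z * (Complex.I * z)).im = Complex.normSq z
    simp [Complex.normSq_apply]
  have h0' : imFun (σ.Z a) (σ.Z b) = 0 := h0
  by_cases hza : σ.Z a = 0
  · by_cases hzb : σ.Z b = 0
    · have := hrad Complex.reLm (by rw [hza]; simp) (by rw [hzb]; simp)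
      have h1 := LinearMap.congr_fun this 1
      simp at h1
    · have := hrad (imFun (σ.Z b)) (by rw [hza]; simp) (hself _)
      have h1 := LinearMap.congr_fun this (Complex.I * σ.Z b)
      rw [hI, LinearMap.zero_apply, Complex.normSq_eq_zero] at h1
      exact hzb h1
  · have := hrad (imFun (σ.Z a)) (hself _) h0'
    have h1 := LinearMap.congr_fun this (Complex.I * σ.Z a)
    rw [hI, LinearMap.zero_apply, Complex.normSq_eq_zero] at h1
    exact hza h1

/-- a real linear map of ℂ with `Re (conj w * L w) > 0` for `w ≠ 0` preserves orientation -/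
theorem det_pos_aux (L : ℂ →ₗ[ℝ] ℂ) (hL : ∀ w : ℂ, w ≠ 0 → 0 < (starRingEnd ℂ w * L w).re)
    (u v : ℂ) (huv : (starRingEnd ℂ u * v).im ≠ 0) :
    0 < (starRingEnd ℂ u * v).im * (starRingEnd ℂ (L u) * L v).im := by
  have hdec : ∀ w : ℂ, L w = (w.re : ℂ) * L 1 + (w.im : ℂ) * L Complex.I := by
    intro w
    have h1 : w = w.re • (1 : ℂ) + w.im • Complex.I := by
      apply Complex.ext <;> simp
    conv_lhs => rw [h1]
    rw [map_add, map_smul, map_smul]
    simp
  set p := (L 1).re with hp
  set q := (L 1).im with hq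
  set r := (L Complex.I).re with hr
  set t := (L Complex.I).im with ht
  have hform : ∀ x y : ℝ, (x ≠ 0 ∨ y ≠ 0) → 0 < p * x ^ 2 + (q + r) * (x * y) + t * y ^ 2 := by
    intro x y hxy
    have hne : (⟨x, y⟩ : ℂ) ≠ 0 := by
      intro h
      have h1 := congrArg Complex.re h
      have h2 := congrArg Complex.im h
      simp at h1 h2
      rcases hxy with h3 | h3
      · exact h3 h1
      · exact h3 h2
    have h1 := hL _ hne
    rw [hdec] at h1
    simp only [Complex.mul_re, Complex.conj_re, Complex.conj_im, Complex.add_re, Complex.add_im,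
      Complex.mul_im, Complex.ofReal_re, Complex.ofReal_im] at h1
    rw [← hp, ← hq, ← hr, ← ht] at h1
    nlinarith
  have hp0 : 0 < p := by
    have := hform 1 0 (Or.inl one_ne_zero); simpa using this
  have ht0 : 0 < t := by
    have := hform 0 1 (Or.inr one_ne_zero); simpa using this
  have hdisc : 0 < p * t - q * r := by
    have h1 := hform (q + r) (-(2 * p)) (Or.inr (by linarith))
    have h2 : p * (q + r) ^ 2 + (q + r) * ((q + r) * -(2 * p)) + t * (-(2 * p)) ^ 2 =
        p * (4 * (p * t) - (q + r) ^ 2) := by ring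
    rw [h2] at h1
    have h3 := (pos_iff_pos_of_mul_pos h1).1 hp0
    nlinarith [sq_nonneg (q - r)]
  have hdet : (starRingEnd ℂ (L u) * L v).im = (p * t - q * r) * (starRingEnd ℂ u * v).im := by
    rw [hdec u, hdec v]
    simp only [Complex.mul_re, Complex.conj_re, Complex.conj_im, Complex.add_re, Complex.add_im,
      Complex.mul_im, Complex.ofReal_re, Complex.ofReal_im]
    rw [← hp, ← hq, ← hr, ← ht]
    ring
  rw [hdet]
  have h4 : 0 < (starRingEnd ℂ u * v).im ^ 2 := by positivity
  nlinarith

theorem orient_near [Module.Free ℤ (K0 C)] [Module.Finite ℤ (K0 C)] (hCY : IsCY2 C k)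
    (hInd : IsIndecomposable C) (hpsd : ∀ x, 0 ≤ eulerForm hCY x x) {a b : K0 C}
    (ha : a ∈ radical hCY) (hb : b ∈ radical hCY)
    (hab : ∀ m n : ℤ, m • a + n • b = 0 → m = 0 ∧ n = 0)
    (hspan : ∀ x ∈ radical hCY, ∃ N m n : ℤ, N ≠ 0 ∧ N • x = m • a + n • b) (σ τ : StabCond C)
    {ε : ℝ} (hε0 : 0 ≤ ε) (hε : ε < 1 / 2) (hn : Near σ.toSlicing τ.toSlicing ε) :
    0 < orient a b σ * orient a b τ := by
  have hσ := orient_ne_zero hCY hInd hpsd ha hb hab hspan σ
  have hτ := orient_ne_zero hCY hInd hpsd ha hb hab hspan τ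
  unfold orient at hσ hτ ⊢
  set u := σ.Z a with hu
  set v := σ.Z b with hv
  set u' := τ.Z a with hu'
  set v' := τ.Z b with hv'
  set d : ℝ := (starRingEnd ℂ u * v).im with hd
  -- the linear map with `L u = u'`, `L v = v'`
  let L : ℂ →ₗ[ℝ] ℂ :=
    { toFun := fun w => ((-(imFun v w) / d : ℝ) : ℂ) * u' + ((imFun u w / d : ℝ) : ℂ) * v'
      map_add' := fun x y => by
        simp only [map_add]; push_cast; ring
      map_smul' := fun r x => by
        rw [(imFun v).map_smul, (imFun u).map_smul]
        simp only [smul_eq_mul, RingHom.id_apply, Complex.real_smul]; push_cast; ring }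
  have hLdef : ∀ w, L w = ((-(imFun v w) / d : ℝ) : ℂ) * u' + ((imFun u w / d : ℝ) : ℂ) * v' :=
    fun _ => rfl
  have hvu : imFun v u = - d := by
    show (starRingEnd ℂ v * u).im = - (starRingEnd ℂ u * v).im
    simp only [Complex.mul_im, Complex.conj_re, Complex.conj_im]; ring
  have huv : imFun u v = d := rfl
  have hself : ∀ z : ℂ, imFun z z = 0 := fun z => by
    show (starRingEnd ℂ z * z).im = 0
    simp; ring
  have hLu : L u = u' := by
    rw [hLdef, hvu, hself, neg_neg, div_self hσ]; simp
  have hLv : L v = v' := by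
    rw [hLdef, huv, hself, div_self hσ]; simp
  have hLrad : ∀ x ∈ radical hCY, τ.Z x = L (σ.Z x) := by
    intro x hx
    obtain ⟨N, m, n, hN, h1⟩ := hspan x hx
    have h2 : ∀ (f : K0 C →+ ℂ), (N : ℂ) * f x = m * f a + n * f b := by
      intro f
      have h3 := congrArg f h1
      rw [map_zsmul, map_add, map_zsmul, map_zsmul, zsmul_eq_mul, zsmul_eq_mul,
        zsmul_eq_mul] at h3
      exact h3
    have h3 := h2 τ.Z
    have h4 := h2 ((L.toAddMonoidHom).comp σ.Z)
    have h5 : (N : ℂ) * L (σ.Z x) = m * L u + n * L v := h4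
    rw [hLu, hLv, ← h3] at h5
    exact (mul_left_cancel₀ (by exact_mod_cast hN) h5).symm
  have hcos : 0 < Real.cos (Real.pi * ε) := by
    refine Real.cos_pos_of_mem_Ioo ⟨?_, ?_⟩ <;> nlinarith [Real.pi_pos]
  have hinj : ∀ w, L w = 0 → w = 0 := by
    intro w hw
    have h1 : imFun u' (L w) = 0 := by rw [hw]; simp
    have h2 : imFun v' (L w) = 0 := by rw [hw]; simp
    have hd' : imFun u' v' ≠ 0 := hτ
    have hv'u' : imFun v' u' = - imFun u' v' := by
      show (starRingEnd ℂ v' * u').im = - (starRingEnd ℂ u' * v').im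
      simp only [Complex.mul_im, Complex.conj_re, Complex.conj_im]; ring
    have hsc : ∀ (z : ℂ) (r : ℝ) (y : ℂ), imFun z ((r : ℂ) * y) = r * imFun z y := by
      intro z r y
      have : (r : ℂ) * y = r • y := by simp
      rw [this, map_smul, smul_eq_mul]
    rw [hLdef, map_add, hsc, hsc, hself, mul_zero, zero_add] at h1
    rw [hLdef, map_add, hsc, hsc, hself, mul_zero, add_zero, hv'u'] at h2
    have h3 : imFun u w = 0 := by
      rcases mul_eq_zero.1 h1 with h | h
      · rcases div_eq_zero_iff.1 h with h | h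
        · exact h
        · exact absurd h hσ
      · exact absurd h hd'
    have h4 : imFun v w = 0 := by
      rcases mul_eq_zero.1 h2 with h | h
      · rcases div_eq_zero_iff.1 h with h | h
        · linarith
        · exact absurd h hσ
      · exact absurd (by linarith) hd'
    -- `w` is zero since `u, v` is a basis
    have e1 : u.re * w.im - u.im * w.re = 0 := by
      have : (starRingEnd ℂ u * w).im = 0 := h3
      simp only [Complex.mul_im, Complex.conj_re, Complex.conj_im] at this; linarith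
    have e2 : v.re * w.im - v.im * w.re = 0 := by
      have : (starRingEnd ℂ v * w).im = 0 := h4
      simp only [Complex.mul_im, Complex.conj_re, Complex.conj_im] at this; linarith
    have e3 : d = u.re * v.im - u.im * v.re := by
      rw [hd]; simp only [Complex.mul_im, Complex.conj_re, Complex.conj_im]; ring
    have e4 : d * w.im = 0 := by rw [e3]; linear_combination v.im * e1 - u.im * e2
    have e5 : d * w.re = 0 := by rw [e3]; linear_combination v.re * e1 - u.re * e2
    apply Complex.ext
    · rcases mul_eq_zero.1 e5 with h | h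
      · exact absurd h hσ
      · simpa using h
    · rcases mul_eq_zero.1 e4 with h | h
      · exact absurd h hσ
      · simpa using h
  have hpos : ∀ w : ℂ, w ≠ 0 → 0 < (starRingEnd ℂ w * L w).re := by
    intro w hw
    have h1 := sign_aux hCY hInd hpsd ha hb hab σ τ hε0 hε hn L hLrad w
    have h2 : 0 < ‖w‖ := norm_pos_iff.2 hw
    have h3 : 0 < ‖L w‖ := norm_pos_iff.2 (fun h => hw (hinj w h))
    exact lt_of_lt_of_le (by positivity) h1
  have := det_pos_aux L hpos u v hσ
  rwa [hLu, hLv] at this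

end MP_14a437_ag
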