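import Pool.Agent.Work.MP_14a437_ag.T.Gap
import Pool.Agent.Work.MP_14a437_ag.T.ThmA

/-!
# T/Key  (M) : phases are dense, stable objects of large mass in every sector

`dense_phases`: otherwise `finiteLength_of_gap`, and `not_finiteLength` contradicts `hab`.
`key`: otherwise all stable objects with phase in `(s,t)` (we may shrink so that `t ≤ s + 1`) have
`‖Z‖ ≤ R`, so their classes form a finite set (`finite_classes`), so `(s,t)` contains only finitely many
phases `φ` of stable objects (`Z_eq_norm`: the class determines `exp(π i φ)`, hence `φ`, as `t ≤ s+1`;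
`Z ≠ 0` by `compat`).  A finite set of reals has a gap: there are `s ≤ s' < t' ≤ t` with no such phase in
`(s',t')`; but `dense_phases` gives a nonzero semistable object with phase in `(s',t')` and
`exists_stable` a stable one of the same phase.
-/

open CategoryTheory CategoryTheory.Limits CategoryTheory.Pretriangulated

universe v u

namespace MP_14a437_ag

variable {C : Type u} [Category.{v} C] [Preadditive C] [HasZeroObject C] [HasShift C ℤ]
  [∀ n : ℤ, (shiftFunctor C n).Additive] [Pretriangulated C] [IsTriangulated C]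

variable {k : Type*} [Field k] [Linear k C]

theorem dense_phases [Module.Free ℤ (K0 C)] [Module.Finite ℤ (K0 C)] (hCY : IsCY2 C k)
    (hInd : IsIndecomposable C) (hpsd : ∀ x, 0 ≤ eulerForm hCY x x) {a b : K0 C}
    (ha : a ∈ radical hCY) (hb : b ∈ radical hCY)
    (hab : ∀ m n : ℤ, m • a + n • b = 0 → m = 0 ∧ n = 0) (σ : StabCond C) (s t : ℝ)
    (hst : s < t) : ∃ (φ : ℝ) (E : C), s < φ ∧ φ < t ∧ σ.P φ E ∧ ¬ IsZero E := by
  by_contra hcon
  push Not at hcon
  obtain ⟨m, n, hmn, h0⟩ := not_finiteLength hCY hInd hpsd σ.toSlicing s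
    (finiteLength_of_gap σ s t hst (fun φ E h1 h2 h3 => hcon φ E h1 h2 h3)) a b ha hb
  obtain ⟨rfl, rfl⟩ := hab m n h0
  simp at hmn

/-- the exponential `φ ↦ exp(π i φ)` is injective on an open interval of length at most one -/
theorem exp_inj_aux {φ ψ s : ℝ} (h1 : s < φ) (h2 : φ < s + 1) (h3 : s < ψ) (h4 : ψ < s + 1)
    (h : Complex.exp (Real.pi * φ * Complex.I) = Complex.exp (Real.pi * ψ * Complex.I)) :
    φ = ψ := by
  rw [Complex.exp_eq_exp_iff_exists_int] at h
  obtain ⟨n, hn⟩ := h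
  have h5 : (Real.pi * φ * Complex.I) = ((Real.pi * ψ + n * (2 * Real.pi) : ℝ) : ℂ) * Complex.I := by
    rw [hn]; push_cast; ring
  have h6 : ((Real.pi * φ : ℝ) : ℂ) = ((Real.pi * ψ + n * (2 * Real.pi) : ℝ) : ℂ) := by
    have := mul_right_cancel₀ Complex.I_ne_zero h5
    rw [← this]; push_cast; ring
  have h7 : Real.pi * φ = Real.pi * ψ + n * (2 * Real.pi) := by exact_mod_cast h6
  have h8 : φ = ψ + 2 * n := by
    have := Real.pi_pos
    have h9 : Real.pi * (φ - (ψ + 2 * n)) = 0 := by linear_combination h7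
    rcases mul_eq_zero.1 h9 with h10 | h10
    · linarith
    · linarith
  have h9 : (n : ℝ) < 1 := by linarith
  have h10 : (-1 : ℝ) < n := by linarith
  have h11 : n < 1 := by exact_mod_cast h9
  have h12 : -1 < n := by exact_mod_cast h10
  have h13 : n = 0 := by omega
  rw [h8, h13]; simp

/-- a finite set of reals has a gap in every interval -/
theorem exists_gap (F : Set ℝ) (hF : F.Finite) {s t : ℝ} (hst : s < t) :
    ∃ s' t' : ℝ, s ≤ s' ∧ s' < t' ∧ t' ≤ t ∧ ∀ φ ∈ F, ¬ (s' < φ ∧ φ < t') := by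
  induction F, hF using Set.Finite.induction_on with
  | empty => exact ⟨s, t, le_rfl, hst, le_rfl, by simp⟩
  | @insert x F _ _ ih =>
    obtain ⟨s', t', h1, h2, h3, h4⟩ := ih
    by_cases hx : s' < x ∧ x < t'
    · refine ⟨s', x, h1, hx.1, hx.2.le.trans h3, ?_⟩
      rintro φ (rfl | hφ) ⟨h5, h6⟩
      · exact lt_irrefl _ h6
      · exact h4 φ hφ ⟨h5, h6.trans hx.2⟩
    · refine ⟨s', t', h1, h2, h3, ?_⟩
      rintro φ (rfl | hφ)
      · exact hx
      · exact h4 φ hφ

theorem key [Module.Free ℤ (K0 C)] [Module.Finite ℤ (K0 C)] (hCY : IsCY2 C k)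
    (hInd : IsIndecomposable C) (hpsd : ∀ x, 0 ≤ eulerForm hCY x x) {a b : K0 C}
    (ha : a ∈ radical hCY) (hb : b ∈ radical hCY)
    (hab : ∀ m n : ℤ, m • a + n • b = 0 → m = 0 ∧ n = 0) (σ : StabCond C) (s t : ℝ)
    (hst : s < t) (R : ℝ) :
    ∃ (φ : ℝ) (X : C), s < φ ∧ φ < t ∧ TSimple (σ.P φ) X ∧ R < ‖σ.Z (cl X)‖ := by
  wlog ht : t ≤ s + 1 generalizing t
  · obtain ⟨φ, X, h1, h2, h3, h4⟩ := this (s + 1) (by linarith) le_rfl
    exact ⟨φ, X, h1, by linarith, h3, h4⟩
  by_contra hcon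
  push Not at hcon
  set F : Set ℝ := {φ | s < φ ∧ φ < t ∧ ∃ X : C, TSimple (σ.P φ) X} with hFdef
  have hF : F.Finite := by
    have hfin := finite_classes σ R
    refine Set.Finite.of_finite_image (f := fun φ : ℝ => Complex.exp (Real.pi * φ * Complex.I))
      ?_ ?_
    · refine (hfin.image (fun x => σ.Z x / (‖σ.Z x‖ : ℂ))).subset ?_
      rintro _ ⟨φ, ⟨h1, h2, X, hX⟩, rfl⟩
      refine ⟨cl X, ⟨φ, X, hX.1, rfl, hcon φ X h1 h2 hX⟩, ?_⟩
      have hZ := Z_eq_norm σ hX.1
      have hne : (‖σ.Z (cl X)‖ : ℂ) ≠ 0 := by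
        obtain ⟨m, hm, h3⟩ := σ.compat φ X hX.1 hX.2.1
        rw [h3]
        simp [hm.ne', Complex.norm_exp]
      dsimp only
      rw [div_eq_iff hne, mul_comm]
      exact hZ
    · rintro φ ⟨h1, h2, -⟩ ψ ⟨h3, h4, -⟩ h
      exact exp_inj_aux h1 (by linarith) h3 (by linarith) h
  obtain ⟨s', t', h1, h2, h3, h4⟩ := exists_gap F hF hst
  obtain ⟨φ, E, h5, h6, h7, h8⟩ := dense_phases hCY hInd hpsd ha hb hab σ s' t' h2
  obtain ⟨X, hX⟩ := exists_stable σ h7 h8
  exact h4 φ ⟨by linarith, by linarith, X, hX⟩ ⟨h5, h6⟩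

end MP_14a437_ag
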