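import Pool.Agent.Work.MP_14a437_ag.T.Key
import Pool.Agent.Work.MP_14a437_ag.L.Psd2

/-!
# T/Nondeg  (M) : the central charge is nondegenerate on the radical

`stable_bound`: `psd_bound` for `B = eulerForm hCY` and `chi_simple_self` (`P_isAdm`, `eulerForm_cl`):
`(M c)² ≤ K χ(c,c) ≤ 2K`.
`nondeg`: suppose `l ≠ 0`; then `l (exp(π i φ₀)) > 0` for some `φ₀` (take `w` with `l w > 0`, `w = |w| exp(i arg w)`),
by continuity `l (exp(π i φ)) ≥ η > 0` for `φ ∈ (s,t) ∋ φ₀`.  By `stable_bound` for `M = l ∘ Z` and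
`Z_eq_norm`: `‖Z X‖ η ≤ l (Z X) ≤ R` for all stable `X` with phase in `(s,t)`, contradicting `key`.
-/

open CategoryTheory CategoryTheory.Limits CategoryTheory.Pretriangulated

universe v u

namespace MP_14a437_ag

variable {C : Type u} [Category.{v} C] [Preadditive C] [HasZeroObject C] [HasShift C ℤ]
  [∀ n : ℤ, (shiftFunctor C n).Additive] [Pretriangulated C] [IsTriangulated C]

variable {k : Type*} [Field k] [IsAlgClosed k] [Linear k C]

/-- A functional vanishing on the radical is bounded on classes of stable objects. -/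
theorem stable_bound [Module.Free ℤ (K0 C)] [Module.Finite ℤ (K0 C)] (hCY : IsCY2 C k)
    (hpsd : ∀ x, 0 ≤ eulerForm hCY x x) (M : K0 C →+ ℝ)
    (hM : ∀ x ∈ radical hCY, M x = 0) (σ : StabCond C) :
    ∃ R : ℝ, ∀ (φ : ℝ) (X : C), TSimple (σ.P φ) X → |M (cl X)| ≤ R := by
  obtain ⟨K, hK0, hK⟩ := psd_bound (eulerForm hCY) (eulerForm_symm hCY) hpsd M
    (fun x hx => hM x ((mem_radical hCY x).2 hx))
  refine ⟨2 * K + 1, fun φ X hX => ?_⟩
  have h1 := hK (cl X)
  rw [eulerForm_cl] at h1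
  have h2 : (chi k X X : ℝ) ≤ 2 := by
    exact_mod_cast chi_simple_self hCY (P_isAdm σ φ) hX
  have h3 : (M (cl X)) ^ 2 ≤ 2 * K := by nlinarith
  have h4 : |M (cl X)| ^ 2 ≤ 2 * K := by rwa [sq_abs]
  nlinarith [abs_nonneg (M (cl X))]

theorem nondeg [Module.Free ℤ (K0 C)] [Module.Finite ℤ (K0 C)] (hCY : IsCY2 C k)
    (hInd : IsIndecomposable C) (hpsd : ∀ x, 0 ≤ eulerForm hCY x x) {a b : K0 C}
    (ha : a ∈ radical hCY) (hb : b ∈ radical hCY)
    (hab : ∀ m n : ℤ, m • a + n • b = 0 → m = 0 ∧ n = 0) (σ : StabCond C) (l : ℂ →ₗ[ℝ] ℝ)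
    (hl : ∀ x ∈ radical hCY, l (σ.Z x) = 0) : l = 0 := by
  by_contra hne
  obtain ⟨w, hw⟩ : ∃ w : ℂ, 0 < l w := by
    obtain ⟨w, hw⟩ : ∃ w, l w ≠ 0 := by
      by_contra hcon
      push Not at hcon
      exact hne (LinearMap.ext hcon)
    rcases lt_or_gt_of_ne hw with h | h
    · exact ⟨-w, by rw [map_neg]; linarith⟩
    · exact ⟨w, h⟩
  have hlc : Continuous l := LinearMap.continuous_of_finiteDimensional l
  have hscale : ∀ (r : ℝ) (z : ℂ), l ((r : ℂ) * z) = r * l z := by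
    intro r z
    have : (r : ℂ) * z = r • z := by simp
    rw [this, map_smul, smul_eq_mul]
  set φ₀ : ℝ := w.arg / Real.pi with hφ₀
  have hexp0 : Complex.exp (Real.pi * φ₀ * Complex.I) = Complex.exp (w.arg * Complex.I) := by
    congr 2
    rw [hφ₀]
    have := Real.pi_ne_zero
    push_cast
    field_simp
  have hpos0 : 0 < l (Complex.exp (Real.pi * φ₀ * Complex.I)) := by
    rw [hexp0]
    have h1 : l w = ‖w‖ * l (Complex.exp (w.arg * Complex.I)) := by
      rw [← hscale, Complex.norm_mul_exp_arg_mul_I]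
    rw [h1] at hw
    exact (pos_iff_pos_of_mul_pos hw).1 (lt_of_le_of_ne (norm_nonneg w) (by
      intro h0; rw [← h0, zero_mul] at hw; exact lt_irrefl _ hw))
  have hcont : Continuous fun φ : ℝ => l (Complex.exp (Real.pi * φ * Complex.I)) := by
    refine hlc.comp (Complex.continuous_exp.comp ?_)
    fun_prop
  set η : ℝ := l (Complex.exp (Real.pi * φ₀ * Complex.I)) / 2 with hη
  have hη0 : 0 < η := by positivity
  have hη1 : η < l (Complex.exp (Real.pi * φ₀ * Complex.I)) := by rw [hη]; linarith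
  have hev : ∀ᶠ φ : ℝ in nhds φ₀, η < l (Complex.exp (Real.pi * (φ : ℂ) * Complex.I)) :=
    (hcont.tendsto φ₀).eventually (lt_mem_nhds hη1)
  obtain ⟨ε, hε, hball⟩ := Metric.eventually_nhds_iff.1 hev
  let M : K0 C →+ ℝ := (l.toAddMonoidHom).comp σ.Z
  obtain ⟨R, hR⟩ := stable_bound hCY hpsd M (fun x hx => hl x hx) σ
  obtain ⟨φ, X, h1, h2, h3, h4⟩ := key hCY hInd hpsd ha hb hab σ (φ₀ - ε) (φ₀ + ε)
    (by linarith) (R / η)
  have h5 : η < l (Complex.exp (Real.pi * φ * Complex.I)) := hball (by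
    rw [Real.dist_eq, abs_lt]; constructor <;> linarith)
  have h6 : |l (σ.Z (cl X))| ≤ R := hR φ X h3
  rw [Z_eq_norm σ h3.1, hscale] at h6
  have h7 : ‖σ.Z (cl X)‖ * l (Complex.exp (Real.pi * φ * Complex.I)) ≤ R :=
    (le_abs_self _).trans h6
  have h8 : ‖σ.Z (cl X)‖ * η ≤ R :=
    (mul_le_mul_of_nonneg_left h5.le (norm_nonneg _)).trans h7
  rw [div_lt_iff₀ hη0] at h4
  linarith

end MP_14a437_ag
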