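import Pool.Agent.Work.MP_14a437_ag.T.Nondeg

/-!
# T/Sign  (M) : nearby stability conditions induce nearly conformal maps on the radical

`near_re`: the HN list of `X` for `σ` is `[ψ]` (`hn_single`), so the HN phases of `X` for `τ` lie in
`[ψ-ε, ψ+ε]` (`Near`, `hn_sorted`: all members are between head and last).  Each factor `A` of phase `φ`
has `Re(exp(-π i ψ) Z_τ(A)) = ‖Z_τ(A)‖ cos(π(φ-ψ)) ≥ cos(π ε) ‖Z_τ(A)‖`; sum over the factors
(`cl_tri`, triangle inequality).
`sign_aux`: `M₁ = Re ∘ (Z_τ - L ∘ Z_σ)`, `M₂ = Im ∘ (Z_τ - L ∘ Z_σ)` vanish on the radical, so by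
`stable_bound` `‖Z_τ(X) - L(Z_σ(X))‖ ≤ K` for all σ-stable `X`.  Let `w = |w| exp(π i φ₀)`, wlog `|w| = 1`.
Apply `key` to `σ`, the interval `(φ₀ - 1/n, φ₀ + 1/n)` and `R = n`: stable `X_n` with phase `ψ_n` and
`near_re` gives, after division by `‖Z_σ(X_n)‖`,
`Re(exp(-π i ψ_n) L(exp(π i ψ_n))) ≥ cos(π ε) ‖L(exp(π i ψ_n))‖ - 2K/‖Z_σ(X_n)‖`; let `n → ∞`.
-/

open CategoryTheory CategoryTheory.Limits CategoryTheory.Pretriangulated

universe v u

namespace MP_14a437_ag

variable {C : Type u} [Category.{v} C] [Preadditive C] [HasZeroObject C] [HasShift C ℤ]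
  [∀ n : ℤ, (shiftFunctor C n).Additive] [Pretriangulated C] [IsTriangulated C]

variable {k : Type*} [Field k] [IsAlgClosed k] [Linear k C]

omit [IsTriangulated C] in
/-- real part estimate for an object with HN phases near `ψ` -/
theorem hn_re_aux (τ : StabCond C) {ε ψ : ℝ} (hε0 : 0 ≤ ε) (hε : ε < 1 / 2) {E : C}
    {m : List ℝ} (hE : HN τ.P E m) (hm : ∀ φ ∈ m, |ψ - φ| ≤ ε) :
    Real.cos (Real.pi * ε) * ‖τ.Z (cl E)‖ ≤
      (Complex.exp (-(Real.pi * ψ * Complex.I)) * τ.Z (cl E)).re := by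
  have hcos : 0 ≤ Real.cos (Real.pi * ε) := by
    refine Real.cos_nonneg_of_neg_pi_div_two_le_of_le ?_ ?_ <;> nlinarith [Real.pi_pos]
  induction hE with
  | zero h => rw [cl_zero h]; simp
  | @cons E' E A l φ f g h hT hE' hA hA0 hl ih =>
    have ih' := ih (fun χ hχ => hm χ (List.mem_cons_of_mem _ hχ))
    have hφ := hm φ (List.mem_cons_self)
    rw [cl_tri f g h hT, map_add]
    have hA' : Real.cos (Real.pi * ε) * ‖τ.Z (cl A)‖ ≤
        (Complex.exp (-(Real.pi * ψ * Complex.I)) * τ.Z (cl A)).re := by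
      obtain ⟨r, hr, hZ⟩ := τ.compat φ A hA hA0
      have h1 : Complex.exp (-(Real.pi * ψ * Complex.I)) * τ.Z (cl A) =
          r * Complex.exp (((Real.pi * (φ - ψ) : ℝ) : ℂ) * Complex.I) := by
        rw [hZ, mul_left_comm, ← Complex.exp_add]
        congr 2
        push_cast; ring
      have h2 : ‖τ.Z (cl A)‖ = r := by
        rw [hZ, norm_mul, Complex.norm_real, Real.norm_eq_abs, abs_of_pos hr]
        have : (Real.pi * φ * Complex.I : ℂ) = ((Real.pi * φ : ℝ) : ℂ) * Complex.I := by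
          push_cast; ring
        rw [this, Complex.norm_exp_ofReal_mul_I, mul_one]
      rw [h1, h2, Complex.re_ofReal_mul, Complex.exp_ofReal_mul_I_re, mul_comm]
      refine mul_le_mul_of_nonneg_left ?_ hr.le
      rw [← Real.cos_abs (Real.pi * (φ - ψ))]
      have h3 : |Real.pi * (φ - ψ)| = Real.pi * |ψ - φ| := by
        rw [abs_mul, abs_of_pos Real.pi_pos, abs_sub_comm]
      rw [h3]
      refine Real.cos_le_cos_of_nonneg_of_le_pi (by positivity) ?_ ?_
      · nlinarith [Real.pi_pos]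
      · exact mul_le_mul_of_nonneg_left hφ Real.pi_pos.le
    calc Real.cos (Real.pi * ε) * ‖τ.Z (cl E') + τ.Z (cl A)‖
        ≤ Real.cos (Real.pi * ε) * (‖τ.Z (cl E')‖ + ‖τ.Z (cl A)‖) :=
          mul_le_mul_of_nonneg_left (norm_add_le _ _) hcos
      _ ≤ _ := by
          rw [mul_add, mul_add, Complex.add_re]
          exact add_le_add ih' hA'

omit [IsTriangulated C] in
theorem near_re (σ τ : StabCond C) {ε : ℝ} (hε0 : 0 ≤ ε) (hε : ε < 1 / 2)
    (hn : Near σ.toSlicing τ.toSlicing ε) {ψ : ℝ} {X : C} (hX : σ.P ψ X) :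
    Real.cos (Real.pi * ε) * ‖τ.Z (cl X)‖ ≤
      (Complex.exp (-(Real.pi * ψ * Complex.I)) * τ.Z (cl X)).re := by
  by_cases h0 : IsZero X
  · rw [cl_zero h0]; simp
  obtain ⟨m, hm⟩ := τ.exists_hn X
  refine hn_re_aux τ hε0 hε hm ?_
  have hm0 : m ≠ [] := by
    rintro rfl
    exact h0 (isZero_of_hn_nil hm)
  obtain ⟨h1, h2⟩ := hn X [ψ] m (by simp) hm0 (hn_single σ.toSlicing hX h0) hm
  simp only [List.head_cons, List.getLast_singleton] at h1 h2
  have hs := hn_sorted hm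
  intro φ hφ
  have h3 : m.head hm0 ≤ φ := by
    cases m with
    | nil => exact absurd rfl hm0
    | cons x l =>
      rw [List.head_cons]
      rcases List.mem_cons.1 hφ with rfl | h
      · exact le_rfl
      · exact ((List.pairwise_cons.1 hs).1 φ h).le
  have h4 : φ ≤ m.getLast hm0 := by
    have hd := List.dropLast_append_getLast hm0
    rw [← hd] at hφ hs
    rcases List.mem_append.1 hφ with h | h
    · exact ((List.pairwise_append.1 hs).2.2 φ h _ (by simp)).le
    · simp only [List.mem_singleton] at h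
      exact h.le
  rw [abs_le] at h1 h2 ⊢
  constructor <;> linarith [h1.1, h1.2, h2.1, h2.2]

theorem sign_aux [Module.Free ℤ (K0 C)] [Module.Finite ℤ (K0 C)] (hCY : IsCY2 C k)
    (hInd : IsIndecomposable C) (hpsd : ∀ x, 0 ≤ eulerForm hCY x x) {a b : K0 C}
    (ha : a ∈ radical hCY) (hb : b ∈ radical hCY)
    (hab : ∀ m n : ℤ, m • a + n • b = 0 → m = 0 ∧ n = 0) (σ τ : StabCond C)
    {ε : ℝ} (hε0 : 0 ≤ ε) (hε : ε < 1 / 2) (hn : Near σ.toSlicing τ.toSlicing ε)
    (L : ℂ →ₗ[ℝ] ℂ) (hL : ∀ x ∈ radical hCY, τ.Z x = L (σ.Z x)) (w : ℂ) :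
    Real.cos (Real.pi * ε) * ‖w‖ * ‖L w‖ ≤ (starRingEnd ℂ w * L w).re := by
  have hcos : 0 ≤ Real.cos (Real.pi * ε) := by
    refine Real.cos_nonneg_of_neg_pi_div_two_le_of_le ?_ ?_ <;> nlinarith [Real.pi_pos]
  have hcos1 : Real.cos (Real.pi * ε) ≤ 1 := Real.cos_le_one _
  have hLc : Continuous L := LinearMap.continuous_of_finiteDimensional L
  have hscale : ∀ (r : ℝ) (z : ℂ), L ((r : ℂ) * z) = (r : ℂ) * L z := by
    intro r z
    have h1 : (r : ℂ) * z = r • z := by simp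
    rw [h1, map_smul]; simp
  -- the bound on the difference
  let D : K0 C →+ ℂ := τ.Z - (L.toAddMonoidHom).comp σ.Z
  have hD0 : ∀ x ∈ radical hCY, D x = 0 := fun x hx => by
    show τ.Z x - L (σ.Z x) = 0
    rw [hL x hx, sub_self]
  obtain ⟨R1, hR1⟩ := stable_bound hCY hpsd ((Complex.reLm.toAddMonoidHom).comp D)
    (fun x hx => by
      show (D x).re = 0
      rw [hD0 x hx]; rfl) σ
  obtain ⟨R2, hR2⟩ := stable_bound hCY hpsd ((Complex.imLm.toAddMonoidHom).comp D)
    (fun x hx => by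
      show (D x).im = 0
      rw [hD0 x hx]; rfl) σ
  have hDb : ∀ (φ : ℝ) (X : C), TSimple (σ.P φ) X → ‖D (cl X)‖ ≤ R1 + R2 := fun φ X hX =>
    (Complex.norm_le_abs_re_add_abs_im _).trans (add_le_add (hR1 φ X hX) (hR2 φ X hX))
  set K : ℝ := |R1 + R2| with hK
  -- the main continuous function
  let F : ℝ → ℝ := fun φ => (Complex.exp (-(Real.pi * φ * Complex.I)) *
    L (Complex.exp (Real.pi * φ * Complex.I))).re -
      Real.cos (Real.pi * ε) * ‖L (Complex.exp (Real.pi * φ * Complex.I))‖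
  have hFc : Continuous F := by
    have hc1 : Continuous fun φ : ℝ => Complex.exp (Real.pi * φ * Complex.I) :=
      Complex.continuous_exp.comp (by fun_prop)
    have hc2 : Continuous fun φ : ℝ => Complex.exp (-(Real.pi * φ * Complex.I)) :=
      Complex.continuous_exp.comp (by fun_prop)
    have hc3 := hLc.comp hc1
    exact (Complex.continuous_re.comp (hc2.mul hc3)).sub (continuous_const.mul hc3.norm)
  have hF : ∀ φ₀, 0 ≤ F φ₀ := by
    intro φ₀
    by_contra hneg
    push Not at hneg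
    set η : ℝ := - F φ₀ / 2 with hη
    have hη0 : 0 < η := by rw [hη]; linarith
    have hη1 : F φ₀ < - η := by rw [hη]; linarith
    have hev : ∀ᶠ φ : ℝ in nhds φ₀, F φ < - η := (hFc.tendsto φ₀).eventually (gt_mem_nhds hη1)
    obtain ⟨δ, hδ, hball⟩ := Metric.eventually_nhds_iff.1 hev
    obtain ⟨φ, X, h1, h2, h3, h4⟩ := key hCY hInd hpsd ha hb hab σ (φ₀ - δ) (φ₀ + δ)
      (by linarith) ((2 * K + 1) / η)
    have h5 : F φ < - η := hball (by
      rw [Real.dist_eq, abs_lt]; constructor <;> linarith)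
    have h6 := near_re σ τ hε0 hε hn h3.1
    have hτ : τ.Z (cl X) = (‖σ.Z (cl X)‖ : ℂ) * L (Complex.exp (Real.pi * φ * Complex.I)) +
        D (cl X) := by
      rw [← hscale, ← Z_eq_norm σ h3.1]
      show τ.Z (cl X) = L (σ.Z (cl X)) + (τ.Z (cl X) - L (σ.Z (cl X)))
      ring
    have hDX : ‖D (cl X)‖ ≤ K := (hDb φ X h3).trans (le_abs_self _)
    set r : ℝ := ‖σ.Z (cl X)‖ with hr
    have hr0 : 0 ≤ r := norm_nonneg _
    set v : ℂ := L (Complex.exp (Real.pi * φ * Complex.I)) with hv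
    set e : ℂ := Complex.exp (-(Real.pi * φ * Complex.I)) with he
    have hen : ‖e‖ = 1 := by
      rw [he]
      have : (-(Real.pi * φ * Complex.I) : ℂ) = ((-(Real.pi * φ) : ℝ) : ℂ) * Complex.I := by
        push_cast; ring
      rw [this, Complex.norm_exp_ofReal_mul_I]
    rw [hτ] at h6
    have h7 : (e * ((r : ℂ) * v + D (cl X))).re ≤ r * (e * v).re + K := by
      have h8 : e * ((r : ℂ) * v + D (cl X)) = (r : ℂ) * (e * v) + e * D (cl X) := by ring
      rw [h8, Complex.add_re, Complex.re_ofReal_mul]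
      have h9 : (e * D (cl X)).re ≤ K := by
        refine (Complex.re_le_norm _).trans ?_
        rw [norm_mul, hen, one_mul]; exact hDX
      linarith
    have h8 : r * ‖v‖ - K ≤ ‖(r : ℂ) * v + D (cl X)‖ := by
      have h9 : ‖(r : ℂ) * v‖ ≤ ‖(r : ℂ) * v + D (cl X)‖ + ‖D (cl X)‖ := by
        have := norm_sub_le ((r : ℂ) * v + D (cl X)) (D (cl X))
        simpa using this
      rw [norm_mul, Complex.norm_real, Real.norm_eq_abs, abs_of_nonneg hr0] at h9
      linarith
    have hK0 : 0 ≤ K := abs_nonneg _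
    have h9 : r * F φ ≥ - (2 * K) := by
      show r * ((e * v).re - Real.cos (Real.pi * ε) * ‖v‖) ≥ - (2 * K)
      have h10 := mul_le_mul_of_nonneg_left h8 hcos
      have h11 := h10.trans (h6.trans h7)
      nlinarith [mul_le_mul_of_nonneg_right hcos1 hK0]
    rw [div_lt_iff₀ hη0] at h4
    nlinarith
  -- scaling
  set φ₀ : ℝ := w.arg / Real.pi with hφ₀
  have hexp0 : Complex.exp (Real.pi * φ₀ * Complex.I) = Complex.exp (w.arg * Complex.I) := by
    congr 2
    rw [hφ₀]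
    have := Real.pi_ne_zero
    push_cast
    field_simp
  have hw : w = (‖w‖ : ℂ) * Complex.exp (Real.pi * φ₀ * Complex.I) := by
    rw [hexp0, Complex.norm_mul_exp_arg_mul_I]
  have hLw : L w = (‖w‖ : ℂ) * L (Complex.exp (Real.pi * φ₀ * Complex.I)) := by
    conv_lhs => rw [hw]
    exact hscale _ _
  have hcw : starRingEnd ℂ w = (‖w‖ : ℂ) * Complex.exp (-(Real.pi * φ₀ * Complex.I)) := by
    conv_lhs => rw [hw]
    rw [map_mul, Complex.conj_ofReal, ← Complex.exp_conj]
    congr 2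
    simp
  have h1 := hF φ₀
  have h2 : (starRingEnd ℂ w * L w).re = ‖w‖ * (‖w‖ *
      (Complex.exp (-(Real.pi * φ₀ * Complex.I)) *
        L (Complex.exp (Real.pi * φ₀ * Complex.I))).re) := by
    rw [hLw, hcw, ← Complex.re_ofReal_mul, ← Complex.re_ofReal_mul]
    congr 1
    ring
  have h3 : ‖L w‖ = ‖w‖ * ‖L (Complex.exp (Real.pi * φ₀ * Complex.I))‖ := by
    rw [hLw, norm_mul, Complex.norm_real, norm_norm]
  rw [h2, h3]
  have h4 : 0 ≤ (Complex.exp (-(Real.pi * φ₀ * Complex.I)) *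
    L (Complex.exp (Real.pi * φ₀ * Complex.I))).re -
      Real.cos (Real.pi * ε) * ‖L (Complex.exp (Real.pi * φ₀ * Complex.I))‖ := h1
  have h5 := mul_nonneg (mul_nonneg (norm_nonneg w) (norm_nonneg w)) h4
  nlinarith

end MP_14a437_ag
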