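import Pool.Agent.Work.MP_14a437_ag.S.Ext

/-!
# T/TStr  (M-L) : a bounded t-structure as a slicing with integral phases

`P φ E := IsZero E ∨ ∃ n : ℤ, φ = n ∧ t.heart (E⟦(1 - n : ℤ)⟧)`, so that `P 1` is the heart
(`t.heart = t.le 0 ⊓ t.ge 0`).  An object `E` of `P n` satisfies `t.le (1-n) E` and `t.ge (1-n) E`
(`TStructure.isLE_of_shift`, `isGE_of_shift`); conversely an object with both is in `P n`.
* `hom`: `X ∈ P m`, `Y ∈ P n`, `n < m`: `X` is `≤ 1 - m`, `Y` is `≥ 1 - n > 1 - m` (`t.zero`).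
* `biprod`: `le n`, `ge n` are closed under biproducts: use `t.exists_triangle` for `X ⊞ Y` or
  `binaryBiproductTriangle_distinguished` and: `E` is `≤ n` iff `Hom(E, Y) = 0` for all `Y ∈ ge (n+1)`
  (truncation triangle); see also `Mathlib.CategoryTheory.Triangulated.TStructure.TruncLTGE`
  (`isLE₂`, `isGE₂`, closure under extensions).
* `exists_hn`: if `E` is `≥ a` and `≤ b` (`a ≤ b`, `E` bounded) then `E` has an HN filtration with
  phases in `{1-b, ..., 1-a}`; induction on `b - a`: the truncation triangle `A → E → B`, `A ∈ le (b-1)`,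
  `B ∈ ge b` (`t.exists_triangle E (b-1) b`); `B` is also `≤ b` (a quotient: `A[1] ∈ le (b-2)`,
  extension closure), so `B ∈ P (1-b)`, `A` is `≥ a` (extension of `E` by `B⟦-1⟧ ∈ ge (b+1)`) and `≤ b-1`,
  so its phases are `≥ 2 - b > 1 - b`; `HN.cons` (or use `A`'s filtration if `B` is zero).
* heart: `S.heart 0 E` iff all HN phases are in `(0,1]`, so equal to `1` (nonzero factors have integral
  phases); `PS_singleton` / `P_ext`.
-/

open CategoryTheory CategoryTheory.Limits CategoryTheory.Pretriangulated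

universe v u

namespace MP_14a437_ag

variable {C : Type u} [Category.{v} C] [Preadditive C] [HasZeroObject C] [HasShift C ℤ]
  [∀ n : ℤ, (shiftFunctor C n).Additive] [Pretriangulated C] [IsTriangulated C]

/-- the semistable objects: integral phases -/
private def tP (t : Triangulated.TStructure C) (φ : ℝ) : ObjectProperty C := fun E =>
  IsZero E ∨ ∃ n : ℤ, (n : ℝ) = φ ∧ t.IsLE E (1 - n) ∧ t.IsGE E (1 - n)

private theorem tP_int (t : Triangulated.TStructure C) (n : ℤ) (E : C) (h : tP t (n : ℝ) E) :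
    t.IsLE E (1 - n) ∧ t.IsGE E (1 - n) := by
  rcases h with h | ⟨m, hm, h1, h2⟩
  · exact ⟨t.isLE_of_isZero h _, t.isGE_of_isZero h _⟩
  · have hmn : m = n := by exact_mod_cast hm
    subst hmn
    exact ⟨h1, h2⟩

private theorem tP_iso (t : Triangulated.TStructure C) (φ : ℝ) :
    (tP t φ).IsClosedUnderIsomorphisms := by
  constructor
  intro X Y e h
  rcases h with h | ⟨n, hn, h1, h2⟩
  · exact Or.inl (h.of_iso e.symm)
  · exact Or.inr ⟨n, hn, t.isLE_of_iso e _, t.isGE_of_iso e _⟩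

private theorem tP_biprod (t : Triangulated.TStructure C) (φ : ℝ) (X Y : C) (hX : tP t φ X)
    (hY : tP t φ Y) : tP t φ (X ⊞ Y) := by
  by_cases hφ : ∃ n : ℤ, (n : ℝ) = φ
  · obtain ⟨n, rfl⟩ := hφ
    obtain ⟨h1, h2⟩ := tP_int t n X hX
    obtain ⟨h3, h4⟩ := tP_int t n Y hY
    refine Or.inr ⟨n, rfl, ?_, ?_⟩
    · exact t.isLE₂ _ (binaryBiproductTriangle_distinguished X Y) _ h1 h3
    · exact t.isGE₂ _ (binaryBiproductTriangle_distinguished X Y) _ h2 h4
  · have hX0 : IsZero X := by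
      rcases hX with h | ⟨n, hn, -, -⟩
      · exact h
      · exact absurd ⟨n, hn⟩ hφ
    have hY0 : IsZero Y := by
      rcases hY with h | ⟨n, hn, -, -⟩
      · exact h
      · exact absurd ⟨n, hn⟩ hφ
    left
    rw [IsZero.iff_id_eq_zero]
    apply biprod.hom_ext'
    · exact hX0.eq_of_src _ _
    · exact hY0.eq_of_src _ _

private theorem tP_shift (t : Triangulated.TStructure C) (φ : ℝ) (X : C) :
    tP t (φ + 1) (X⟦(1 : ℤ)⟧) ↔ tP t φ X := by
  constructor
  · rintro (h | ⟨n, hn, h1, h2⟩)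
    · exact Or.inl ((isZero_shift_iff X 1).1 h)
    · refine Or.inr ⟨n - 1, by push_cast; linarith, ?_, ?_⟩
      · exact t.isLE_of_shift X (1 - (n - 1)) 1 (1 - n) (by ring)
      · exact t.isGE_of_shift X (1 - (n - 1)) 1 (1 - n) (by ring)
  · rintro (h | ⟨n, hn, h1, h2⟩)
    · exact Or.inl ((isZero_shift_iff X 1).2 h)
    · refine Or.inr ⟨n + 1, by push_cast; linarith, ?_, ?_⟩
      · exact t.isLE_shift X (1 - n) 1 (1 - (n + 1)) (by ring)
      · exact t.isGE_shift X (1 - n) 1 (1 - (n + 1)) (by ring)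

private theorem tP_hom (t : Triangulated.TStructure C) (φ ψ : ℝ) (X Y : C) (h : ψ < φ)
    (hX : tP t φ X) (hY : tP t ψ Y) (f : X ⟶ Y) : f = 0 := by
  rcases hX with hX | ⟨n, rfl, h1, h2⟩
  · exact hX.eq_of_src _ _
  rcases hY with hY | ⟨m, rfl, h3, h4⟩
  · exact hY.eq_of_tgt _ _
  have hmn : m < n := by exact_mod_cast h
  exact t.zero f (1 - n) (1 - m) (by omega)

private theorem tP_hn (t : Triangulated.TStructure C) (a : ℤ) :
    ∀ (k : ℕ) (E : C), t.IsGE E a → t.IsLE E (a + k - 1) →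
      ∃ l : List ℝ, HN (tP t) E l ∧ ∀ ψ ∈ l, ((1 - (a + k - 1) : ℤ) : ℝ) ≤ ψ := by
  intro k
  induction k with
  | zero =>
    intro E h1 h2
    have h3 : IsZero E := t.isZero E (a + (0 : ℕ) - 1) a (by simp)
    exact ⟨[], HN.zero h3, by simp⟩
  | succ k ih =>
    intro E h1 h2
    obtain ⟨b, hb⟩ : ∃ b : ℤ, b = a + k := ⟨_, rfl⟩
    have hb1 : a + ((k + 1 : ℕ) : ℤ) - 1 = b := by
      rw [hb]
      push_cast
      ring
    have hb2 : a + (k : ℤ) - 1 = b - 1 := by rw [hb]
    rw [hb1] at h2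
    rw [hb2] at ih
    obtain ⟨A, B, hA, hB, f, g, h, hT⟩ := t.exists_triangle E (b - 1) b (by ring)
    have hA1 : t.IsLE A (b - 1) := ⟨hA⟩
    have hB1 : t.IsGE B b := ⟨hB⟩
    have hB2 : t.IsLE B b := by
      have h3 : t.IsLE (A⟦(1 : ℤ)⟧) b := by
        have h4 := t.isLE_shift A (b - 1) 1 (b - 2) (by ring)
        exact t.isLE_of_le _ (b - 2) b (by omega)
      exact t.isLE₂ _ (rot_of_distTriang _ hT) b h2 h3
    have hA2 : t.IsGE A a := by
      have h3 : t.IsGE (B⟦(-1 : ℤ)⟧) a := by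
        have h4 := t.isGE_shift B b (-1) (b + 1) (by ring)
        exact t.isGE_of_ge _ a (b + 1) (by omega)
      exact t.isGE₂ _ (inv_rot_of_distTriang _ hT) a h3 h1
    by_cases hz : IsZero B
    · have hE : t.IsLE E (b - 1) := t.isLE₂ _ hT (b - 1) hA1 (t.isLE_of_isZero hz _)
      obtain ⟨l, hl, hl2⟩ := ih E h1 hE
      refine ⟨l, hl, fun ψ hψ => le_trans ?_ (hl2 ψ hψ)⟩
      rw [hb1]
      push_cast
      linarith
    · obtain ⟨l, hl, hl2⟩ := ih A hA2 hA1
      refine ⟨((1 - b : ℤ) : ℝ) :: l, HN.cons f g h hT hl ?_ hz ?_, ?_⟩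
      · refine Or.inr ⟨1 - b, rfl, ?_, ?_⟩
        · rw [show (1 : ℤ) - (1 - b) = b by ring]
          exact hB2
        · rw [show (1 : ℤ) - (1 - b) = b by ring]
          exact hB1
      · intro ψ hψ
        have h3 := hl2 ψ hψ
        push_cast at h3 ⊢
        linarith
      · intro ψ hψ
        rw [hb1]
        rcases List.mem_cons.1 hψ with h3 | h3
        · rw [h3]
        · have h4 := hl2 ψ h3
          push_cast at h4 ⊢
          linarith

private theorem tP_heart (t : Triangulated.TStructure C) {E : C} {l : List ℝ}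
    (hl : HN (tP t) E l) : (∀ φ ∈ l, φ ∈ Set.Ioc (0 : ℝ) (0 + 1)) → t.IsLE E 0 ∧ t.IsGE E 0 := by
  induction hl with
  | zero h =>
    intro _
    exact ⟨t.isLE_of_isZero h _, t.isGE_of_isZero h _⟩
  | @cons E' E A l φ f g h hT hE' hA hA0 hlt ih =>
    intro hI
    obtain ⟨h1, h2⟩ := ih (fun ψ hψ => hI ψ (List.mem_cons_of_mem _ hψ))
    have hφ := hI φ List.mem_cons_self
    rcases hA with hA | ⟨n, hn, h3, h4⟩
    · exact absurd hA hA0
    · rw [← hn, zero_add] at hφ
      have h5 : (0 : ℤ) < n := by exact_mod_cast hφ.1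
      have h6 : n ≤ 1 := by exact_mod_cast hφ.2
      have h7 : n = 1 := by omega
      subst h7
      exact ⟨t.isLE₂ _ hT 0 h1 h3, t.isGE₂ _ hT 0 h2 h4⟩

theorem exists_slicing_of_tstructure (t : Triangulated.TStructure C) (hb : ∀ X : C, t.bounded X) :
    ∃ S : Slicing C, ∀ E : C, S.heart 0 E ↔ t.heart E := by
  obtain ⟨S, hS⟩ : ∃ S : Slicing C, S.P = tP t := by
    refine ⟨{ P := tP t, iso := tP_iso t, zero := fun φ X h => Or.inl h,
              biprod := tP_biprod t, shift := tP_shift t, hom := tP_hom t,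
              exists_hn := ?_ }, rfl⟩
    intro E
    obtain ⟨⟨a, ha⟩, ⟨b, hb'⟩⟩ := hb E
    have h1 : t.IsLE E (a + ((b + 1 - a).toNat : ℤ) - 1) := t.isLE_of_le E b _ (by omega)
    obtain ⟨l, hl, -⟩ := tP_hn t a (b + 1 - a).toNat E ha h1
    exact ⟨l, hl⟩
  refine ⟨S, fun E => ?_⟩
  rw [t.mem_heart_iff]
  constructor
  · rintro ⟨l, hl, hI⟩
    rw [hS] at hl
    exact tP_heart t hl hI
  · rintro ⟨h1, h2⟩
    have h3 : S.P 1 E := by
      rw [hS]
      exact Or.inr ⟨1, by norm_num, h1, h2⟩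
    exact PS_mono S (by simp) ((PS_singleton S 1 E).2 h3)

end MP_14a437_ag
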